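import Pool.Agent.Lib.helper5.Extral

namespace Pool.Agent.Results.MP_4f6efa_gt.NotTExtral

/-- `X` is t-embedded in every Tychonoff space containing it as a closed subspace -/
def TExtral (X : Type) [TopologicalSpace X] : Prop :=
  ∀ (Z : Type) [TopologicalSpace Z] [T35Space Z] (e : X → Z), Topology.IsClosedEmbedding e →
    ∃ φ : {f : X → ℝ // Continuous f} → {g : Z → ℝ // Continuous g},
      Continuous φ ∧ ∀ (f : {f : X → ℝ // Continuous f}) (x : X), (φ f).1 (e x) = f.1 x

theorem result (ι : Type) [Uncountable ι] : ¬ TExtral (ι → Bool) := by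
  intro h
  obtain ⟨φ, h1, h2⟩ := h _ _ (H5C.cube_emb (ι → Bool))
  obtain ⟨S, hS, h⟩ := H5C.sep_of_ext H5C.rigid_of_td h1 h2
  obtain ⟨x, y, h3, h4⟩ := H5C.not_sep (H5C.cube_emb (ι → Bool)).continuous hS
  exact h3 (h x y h4)

end Pool.Agent.Results.MP_4f6efa_gt.NotTExtral
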